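import Pool.Agent.X67.LF.Main

/-! Countably many properties of integral matrices or vectors at once. -/

set_option autoImplicit false

open Finset Filter Topology MeasureTheory

namespace Pool.Agent.X67.LF

/-- Some system of forms `A` is small at the integral matrix `u`: for all `i`, `A_i u` is within `|u| ^ (-θ_i)` of `y_i`
modulo `1`, `|u|` the largest absolute value of the entries. -/
def SmallAt {q r m : ℕ} (A : Fin m → Fin q × Fin r → ℝ) (θ y : Fin m → ℝ) (u : Fin q → Fin r → ℤ) : Prop :=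
  ∀ i, ∃ p : ℤ, |∑ l : Fin q × Fin r, A i l * u l.1 l.2 - p - y i| ≤
    (size (fun l : Fin q × Fin r => u l.1 l.2) : ℝ) ^ (-θ i)

/-- Some system of forms `A` is small at the integral vector `u`. -/
def SmallAtVec {q m : ℕ} (A : Fin m → Fin q → ℝ) (θ y : Fin m → ℝ) (u : Fin q → ℤ) : Prop :=
  ∀ i, ∃ p : ℤ, |∑ l : Fin q, A i l * u l - p - y i| ≤ (size u : ℝ) ^ (-θ i)

/-- **Integral matrices, countably many properties.** -/
theorem memb_forms {ι : Type} [Countable ι] {q r : ℕ} (P : ι → (Fin q → Fin r → ℤ) → Prop) {s : ℝ}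
    (hs : 0 ≤ s)
    (hP : ∀ i, ∀ ε : ℝ, 0 < ε → ∃ C : ℝ, ∀ H : ℕ, 1 ≤ H →
      ({u : Fin q → Fin r → ℤ | (∀ j b, |u j b| ≤ H) ∧ ¬ P i u}.ncard : ℝ) ≤ C * (H : ℝ) ^ (s + ε))
    {m : ℕ} (θ y : Fin m → ℝ) (hθ : ∀ i, 0 ≤ θ i) (hsum : s < ∑ i, θ i) :
    ∀ᵐ A : Fin m → Fin q × Fin r → ℝ, ∀ i : ι,
      {u : Fin q → Fin r → ℤ | u ≠ 0 ∧ SmallAt A θ y u ∧ ¬ P i u}.Finite := by
  rw [ae_all_iff]
  intro i
  have h1 : Sparse {w : Fin q × Fin r → ℤ | ¬ P i (fun j b => w (j, b))} s := by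
    intro ε hε
    obtain ⟨C, hC⟩ := hP i ε hε
    refine ⟨C, fun X hX => ?_⟩
    refine le_trans ?_ (hC X hX)
    have hfin : {u : Fin q → Fin r → ℤ | (∀ j b, |u j b| ≤ X) ∧ ¬ P i u}.Finite := by
      apply Set.Finite.subset (Set.finite_Icc (fun (_ : Fin q) (_ : Fin r) => -(X : ℤ)) (fun _ _ => (X : ℤ)))
      rintro e ⟨he, -⟩
      exact ⟨fun i j => (abs_le.1 (he i j)).1, fun i j => (abs_le.1 (he i j)).2⟩
    have hsub : {w | w ∈ {w : Fin q × Fin r → ℤ | ¬ P i (fun j b => w (j, b))} ∧ size w ≤ X} ⊆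
        (fun (u : Fin q → Fin r → ℤ) (l : Fin q × Fin r) => u l.1 l.2) ''
          {u : Fin q → Fin r → ℤ | (∀ j b, |u j b| ≤ X) ∧ ¬ P i u} := by
      rintro w ⟨hw, hwX⟩
      refine ⟨fun j b => w (j, b), ⟨fun j b => ?_, hw⟩, rfl⟩
      have := (natAbs_le w (j, b)).trans hwX
      rw [Int.abs_eq_natAbs]
      exact_mod_cast this
    exact Nat.cast_le.2 ((Set.ncard_le_ncard hsub (hfin.image _)).trans (Set.ncard_image_le hfin))
  filter_upwards [ae_forms hs h1 θ y hθ hsum] with A hA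
  refine Set.Finite.of_finite_image (f := fun (u : Fin q → Fin r → ℤ) (l : Fin q × Fin r) => u l.1 l.2)
    (hA.subset ?_) ?_
  · rintro _ ⟨u, ⟨h2, h3, h4⟩, rfl⟩
    refine ⟨h4, fun h5 => h2 ?_, h3⟩
    funext j b
    exact congrFun h5 (j, b)
  · intro u _ v _ huv
    funext j b
    exact congrFun huv (j, b)

/-- **Integral vectors, countably many properties.** -/
theorem memb_forms_vec {ι : Type} [Countable ι] {q : ℕ} (P : ι → (Fin q → ℤ) → Prop) {s : ℝ}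
    (hs : 0 ≤ s)
    (hP : ∀ i, ∀ ε : ℝ, 0 < ε → ∃ C : ℝ, ∀ H : ℕ, 1 ≤ H →
      ({u : Fin q → ℤ | (∀ j, |u j| ≤ H) ∧ ¬ P i u}.ncard : ℝ) ≤ C * (H : ℝ) ^ (s + ε))
    {m : ℕ} (θ y : Fin m → ℝ) (hθ : ∀ i, 0 ≤ θ i) (hsum : s < ∑ i, θ i) :
    ∀ᵐ A : Fin m → Fin q → ℝ, ∀ i : ι,
      {u : Fin q → ℤ | u ≠ 0 ∧ SmallAtVec A θ y u ∧ ¬ P i u}.Finite := by
  rw [ae_all_iff]
  intro i
  have h1 : Sparse {w : Fin q → ℤ | ¬ P i w} s := by
    intro ε hε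
    obtain ⟨C, hC⟩ := hP i ε hε
    refine ⟨C, fun X hX => ?_⟩
    refine le_trans ?_ (hC X hX)
    have hfin : {u : Fin q → ℤ | (∀ j, |u j| ≤ X) ∧ ¬ P i u}.Finite := by
      apply Set.Finite.subset (Set.finite_Icc (fun _ : Fin q => -(X : ℤ)) (fun _ => (X : ℤ)))
      rintro e ⟨he, -⟩
      exact ⟨fun i => (abs_le.1 (he i)).1, fun i => (abs_le.1 (he i)).2⟩
    refine Nat.cast_le.2 (Set.ncard_le_ncard ?_ hfin)
    rintro w ⟨hw, hwX⟩
    refine ⟨fun j => ?_, hw⟩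
    have := (natAbs_le w j).trans hwX
    rw [Int.abs_eq_natAbs]
    exact_mod_cast this
  filter_upwards [ae_forms hs h1 θ y hθ hsum] with A hA
  exact hA.subset fun u hu => ⟨hu.2.2, hu.1, hu.2.1⟩

end Pool.Agent.X67.LF
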