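import Pool.Agent.X67.LF.Form

/-!
# Small values of generic linear forms: the definitions of the statements and the theorem
-/

set_option autoImplicit false

open Finset Filter Topology MeasureTheory

namespace Pool.Agent.X67.LF

open scoped ENNReal NNReal

variable {κ : Type} [Fintype κ]

/-- **Theorem.** Let `P` be a set of integral vectors with at most `C X ^ (s + ε)` elements of sup norm at most `X`,
`θ_i ≥ 0`, `θ_1 + ... + θ_m > s`. For almost all systems `A` of `m` linear forms only finitely many nonzero `w ∈ P`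
satisfy `‖A_i w - y_i‖ ≤ |w| ^ (-θ_i)` for all `i`. -/
theorem ae_forms {P : Set (κ → ℤ)} {s : ℝ} (hs : 0 ≤ s) (hP : Sparse P s) {m : ℕ}
    (θ y : Fin m → ℝ) (hθ : ∀ i, 0 ≤ θ i) (hsum : s < ∑ i, θ i) :
    ∀ᵐ A : Fin m → κ → ℝ, {w : κ → ℤ | w ∈ P ∧ w ≠ 0 ∧
      ∀ i, ∃ p : ℤ, |∑ l, A i l * w l - p - y i| ≤ (size w : ℝ) ^ (-θ i)}.Finite := by
  classical
  have key : ∀ N : ℕ, ∀ᵐ A : Fin m → κ → ℝ, (∀ i l, |A i l| ≤ N) → {w : κ → ℤ | w ∈ P ∧ w ≠ 0 ∧
      ∀ i, ∃ p : ℤ, |∑ l, A i l * w l - p - y i| ≤ (size w : ℝ) ^ (-θ i)}.Finite := by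
    intro N
    set S : (κ → ℤ) → Set (Fin m → κ → ℝ) := fun w =>
      if w ∈ P ∧ 1 ≤ size w then Set.pi Set.univ (fun i => form N (y i) (θ i) w) else ∅ with hS
    set K : ℝ := (4 * (N : ℝ) + 10) ^ (Fintype.card κ) with hK
    have hsm := (summable_sparse hs hP hsum).mul_left (K ^ m)
    have hvol : ∀ w, volume (S w) ≤ ENNReal.ofReal (K ^ m *
        (if w ∈ P ∧ 1 ≤ size w then (size w : ℝ) ^ (-∑ i, θ i) else 0)) := by
      intro w
      rw [hS]
      dsimp only
      split_ifs with hw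
      · rw [volume_pi_pi]
        have hw' : (0 : ℝ) < size w := by exact_mod_cast hw.2
        calc ∏ i, volume (form N (y i) (θ i) w)
            ≤ ∏ i, ENNReal.ofReal (K * (size w : ℝ) ^ (-θ i)) :=
              prod_le_prod' fun i _ => volume_form (y i) (Nat.cast_nonneg N) (hθ i) w hw.2
          _ = ENNReal.ofReal (∏ i, (K * (size w : ℝ) ^ (-θ i))) := by
              rw [ENNReal.ofReal_prod_of_nonneg]
              intro i _
              positivity
          _ = _ := by
              rw [prod_mul_distrib, prod_const, card_univ, Fintype.card_fin]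
              congr 2
              rw [← Real.rpow_sum_of_pos hw', sum_neg_distrib]
      · simp
    have hne : ∑' w, volume (S w) ≠ ∞ :=
      ne_top_of_le_ne_top hsm.tsum_ofReal_ne_top (ENNReal.tsum_le_tsum hvol)
    filter_upwards [ae_finite_setOf_mem hne] with A hA hAN
    refine hA.subset ?_
    rintro w ⟨hwP, hw0, hw⟩
    have h1 : 1 ≤ size w := by
      by_contra hcon
      apply hw0
      funext l
      have := natAbs_le w l
      have h2 : (w l).natAbs = 0 := by omega
      exact Int.natAbs_eq_zero.1 h2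
    show A ∈ S w
    rw [hS]
    dsimp only
    rw [if_pos ⟨hwP, h1⟩]
    exact fun i _ => ⟨fun l => hAN i l, hw i⟩
  filter_upwards [ae_all_iff.2 key] with A hA
  obtain ⟨N, hN⟩ := exists_nat_ge (∑ i, ∑ l, |A i l|)
  refine hA N fun i l => ?_
  calc |A i l| ≤ ∑ l, |A i l| := single_le_sum (f := fun l => |A i l|) (fun j _ => abs_nonneg _) (mem_univ l)
    _ ≤ ∑ i, ∑ l, |A i l| :=
        single_le_sum (f := fun i => ∑ l, |A i l|) (fun j _ => sum_nonneg fun l _ => abs_nonneg _) (mem_univ i)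
    _ ≤ N := hN

/-- The property `Good` of integral vectors holds at the small values of generic linear forms, exponent `s`: for all
`m`, all `θ, y ∈ ℝ ^ m`, `θ_i ≥ 0`, `θ_1 + ... + θ_m > s`, and almost all systems `A` of `m` linear forms, all but
finitely many nonzero integral vectors `w` such that `A_i w` is within `|w| ^ (-θ_i)` of `y_i` modulo `1` for all `i`
(`|w|` = sup norm) are good. -/
def GoodAtSmallValues (Good : (κ → ℤ) → Prop) (s : ℝ) : Prop :=
  ∀ (m : ℕ) (θ y : Fin m → ℝ), (∀ i, 0 ≤ θ i) → s < ∑ i, θ i →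
    ∀ᵐ A : Fin m → κ → ℝ, {w : κ → ℤ | w ≠ 0 ∧
      (∀ i, ∃ p : ℤ, |∑ l, A i l * w l - p - y i| ≤ (size w : ℝ) ^ (-θ i)) ∧ ¬ Good w}.Finite

theorem good_of_sparse (Good : (κ → ℤ) → Prop) {s : ℝ} (hs : 0 ≤ s) (hP : Sparse {w | ¬ Good w} s) :
    GoodAtSmallValues Good s := by
  intro m θ y hθ hsum
  filter_upwards [ae_forms hs hP θ y hθ hsum] with A hA
  exact hA.subset fun w hw => ⟨hw.2.2, hw.1, hw.2.1⟩

end Pool.Agent.X67.LF
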