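import Pool.Agent.X67.LF.Main

/-! Sparse sets of integral vectors from families of exceptions. -/

set_option autoImplicit false

open Finset

namespace Pool.Agent.X67.LF

variable {κ : Type} [Fintype κ]

lemma eq_zero_of_size (w : κ → ℤ) (h : ¬ 1 ≤ size w) : w = 0 := by
  funext l
  have h1 := natAbs_le w l
  have h2 : (w l).natAbs = 0 := by omega
  exact Int.natAbs_eq_zero.1 h2

lemma one_le_size (w : κ → ℤ) (h : w ≠ 0) : 1 ≤ size w := by
  by_contra hcon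
  exact h (eq_zero_of_size w hcon)

/-- Sparse sets from families of exceptions; the entries up to sign. -/
theorem sparse_of_exc {Q : Type} {P : Set (κ → ℤ)} (h : Q → κ → ℤ) (Exc : ℕ → Set Q) {s : ℝ} (hs : 0 ≤ s)
    (hE : ∀ ε : ℝ, 0 < ε → ∃ C : ℝ, ∀ X : ℕ, 1 ≤ X → (Exc X).Finite ∧
      ((Exc X).ncard : ℝ) ≤ C * (X : ℝ) ^ (s + ε))
    (hcov : ∀ w ∈ P, ∀ X : ℕ, 1 ≤ size w → size w ≤ X → ∃ q ∈ Exc X, ∀ l, (w l).natAbs = (h q l).natAbs) :
    Sparse P s := by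
  classical
  intro ε hε
  obtain ⟨C, hC⟩ := hE ε hε
  set M : ℕ := Nat.card (κ → Bool) with hM
  refine ⟨C * M + 1, fun X hX => ?_⟩
  obtain ⟨h1, h2⟩ := hC X hX
  set g : Q × (κ → Bool) → κ → ℤ := fun p l => if p.2 l then h p.1 l else -h p.1 l with hg
  have hfin : (Exc X ×ˢ (Set.univ : Set (κ → Bool))).Finite := h1.prod Set.finite_univ
  have hsub : {w | w ∈ P ∧ size w ≤ X} ⊆ insert 0 (g '' (Exc X ×ˢ (Set.univ : Set (κ → Bool)))) := by
    rintro w ⟨hw, hwX⟩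
    by_cases hw1 : 1 ≤ size w
    · obtain ⟨q, hq, hq1⟩ := hcov w hw X hw1 hwX
      refine Set.mem_insert_of_mem _ ⟨(q, fun l => decide (w l = h q l)), ⟨hq, Set.mem_univ _⟩, ?_⟩
      funext l
      rw [hg]
      dsimp only
      by_cases hl : w l = h q l
      · simp [hl]
      · rcases Int.natAbs_eq_natAbs_iff.1 (hq1 l) with h3 | h3
        · exact absurd h3 hl
        · simp only [hl, decide_false, Bool.false_eq_true, if_false]
          exact h3.symm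
    · rw [eq_zero_of_size w hw1]
      exact Set.mem_insert _ _
  have h3 : ({w | w ∈ P ∧ size w ≤ X}.ncard : ℝ) ≤ (Exc X).ncard * M + 1 := by
    have h4 : {w | w ∈ P ∧ size w ≤ X}.ncard ≤ (Exc X).ncard * M + 1 := by
      refine (Set.ncard_le_ncard hsub ((hfin.image g).insert 0)).trans
        ((Set.ncard_insert_le _ _).trans (Nat.add_le_add_right ?_ 1))
      refine (Set.ncard_image_le hfin).trans (le_of_eq ?_)
      rw [Set.ncard_prod, Set.ncard_univ]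
    exact_mod_cast h4
  have h5 : (1 : ℝ) ≤ (X : ℝ) ^ (s + ε) := Real.one_le_rpow (by exact_mod_cast hX) (by linarith)
  calc ({w | w ∈ P ∧ size w ≤ X}.ncard : ℝ) ≤ (Exc X).ncard * M + 1 := h3
    _ ≤ C * (X : ℝ) ^ (s + ε) * M + (X : ℝ) ^ (s + ε) :=
        add_le_add (mul_le_mul_of_nonneg_right h2 (Nat.cast_nonneg _)) h5
    _ = (C * M + 1) * (X : ℝ) ^ (s + ε) := by ring

/-- Vectors of small size do not matter. -/
theorem sparse_of_large {P : Set (κ → ℤ)} {s : ℝ} (S0 : ℕ) (hs : 0 ≤ s)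
    (h : Sparse {w | w ∈ P ∧ S0 ≤ size w} s) : Sparse P s := by
  intro ε hε
  obtain ⟨C, hC⟩ := h ε hε
  refine ⟨C + ({w : κ → ℤ | size w ≤ S0}.ncard : ℝ), fun X hX => ?_⟩
  have hsub : {w | w ∈ P ∧ size w ≤ X} ⊆
      {w | w ∈ {w | w ∈ P ∧ S0 ≤ size w} ∧ size w ≤ X} ∪ {w : κ → ℤ | size w ≤ S0} := by
    rintro w ⟨hw, hwX⟩
    rcases le_total S0 (size w) with h1 | h1
    · exact Or.inl ⟨⟨hw, h1⟩, hwX⟩
    · exact Or.inr h1
  have hfin : ({w | w ∈ {w | w ∈ P ∧ S0 ≤ size w} ∧ size w ≤ X} ∪ {w : κ → ℤ | size w ≤ S0}).Finite :=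
    ((finite_size X).subset fun w hw => hw.2).union (finite_size S0)
  have h1 : (1 : ℝ) ≤ (X : ℝ) ^ (s + ε) := Real.one_le_rpow (by exact_mod_cast hX) (by linarith)
  calc ({w | w ∈ P ∧ size w ≤ X}.ncard : ℝ)
      ≤ (({w | w ∈ {w | w ∈ P ∧ S0 ≤ size w} ∧ size w ≤ X}.ncard + {w : κ → ℤ | size w ≤ S0}.ncard : ℕ) : ℝ) :=
        Nat.cast_le.2 ((Set.ncard_le_ncard hsub hfin).trans (Set.ncard_union_le _ _))
    _ ≤ C * (X : ℝ) ^ (s + ε) + ({w : κ → ℤ | size w ≤ S0}.ncard : ℝ) := by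
        push_cast
        exact add_le_add (hC X hX) le_rfl
    _ ≤ C * (X : ℝ) ^ (s + ε) + ({w : κ → ℤ | size w ≤ S0}.ncard : ℝ) * (X : ℝ) ^ (s + ε) := by
        have h2 : (0 : ℝ) ≤ ({w : κ → ℤ | size w ≤ S0}.ncard : ℝ) := Nat.cast_nonneg _
        nlinarith
    _ = _ := by ring

end Pool.Agent.X67.LF
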