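import Pool.Agent.X283.DA.Meas

/-!
# Small values of generic linear forms avoid sparse sets of integral vectors

Let `P` be a set of integral vectors with at most `C X ^ (s + ε)` elements of sup norm at most `X`. Let
`θ_1 + ... + θ_m > s`, `θ_i ≥ 0`. For almost all systems `A` of `m` linear forms only finitely many `w ∈ P` satisfy
`‖A_i w - y_i‖ ≤ |w| ^ (-θ_i)` for all `i` (distance to the integers).
-/

set_option autoImplicit false

open Finset Filter Topology MeasureTheory

namespace Pool.Agent.X67.LF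

open scoped ENNReal NNReal

variable {κ : Type} [Fintype κ]

/-- the sup norm of an integral vector -/
def size (w : κ → ℤ) : ℕ := univ.sup fun l => (w l).natAbs

lemma natAbs_le (w : κ → ℤ) (l : κ) : (w l).natAbs ≤ size w := le_sup (f := fun l => (w l).natAbs) (mem_univ l)

lemma exists_max (w : κ → ℤ) (h : 1 ≤ size w) : ∃ l, (w l).natAbs = size w := by
  have hne : (univ : Finset κ).Nonempty := by
    by_contra hcon
    rw [not_nonempty_iff_eq_empty] at hcon
    unfold size at h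
    rw [hcon] at h
    simp at h
  obtain ⟨l, -, hl⟩ := exists_mem_eq_sup univ hne (fun l => (w l).natAbs)
  exact ⟨l, hl.symm⟩

lemma finite_size (X : ℕ) : {w : κ → ℤ | size w ≤ X}.Finite := by
  classical
  refine (Set.Finite.subset (Finset.finite_toSet (Fintype.piFinset fun _ : κ => Icc (-(X : ℤ)) X)) ?_)
  intro w hw
  rw [mem_coe, Fintype.mem_piFinset]
  intro l
  have h1 := (natAbs_le w l).trans hw
  rw [mem_Icc]
  omega

/-- at most `C X ^ (s + ε)` elements of sup norm at most `X` -/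
def Sparse (P : Set (κ → ℤ)) (s : ℝ) : Prop :=
  ∀ ε : ℝ, 0 < ε → ∃ C : ℝ, ∀ X : ℕ, 1 ≤ X → ({w | w ∈ P ∧ size w ≤ X}.ncard : ℝ) ≤ C * (X : ℝ) ^ (s + ε)

open Classical in
theorem summable_sparse {P : Set (κ → ℤ)} {s : ℝ} (hs : 0 ≤ s) (hP : Sparse P s) {D : ℝ} (hD : s < D) :
    Summable (fun w : κ → ℤ => if w ∈ P ∧ 1 ≤ size w then (size w : ℝ) ^ (-D) else 0) := by
  obtain ⟨C, hC⟩ := hP ((D - s) / 2) (by linarith)
  set f : (κ → ℤ) → ℝ := fun w => if w ∈ P ∧ 1 ≤ size w then (size w : ℝ) ^ (-D) else 0 with hf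
  have hf0 : ∀ w, 0 ≤ f w := by
    intro w
    rw [hf]
    dsimp only
    split_ifs
    · positivity
    · exact le_rfl
  set e : ℝ := (D - s) / 2 with he
  have he0 : 0 < e := by rw [he]; linarith
  have hD0 : 0 < D := by linarith
  have hr : (2 : ℝ) ^ (-e) < 1 := Real.rpow_lt_one_of_one_lt_of_neg (by norm_num) (by linarith)
  have hr0 : (0 : ℝ) ≤ (2 : ℝ) ^ (-e) := by positivity
  have hgeo : Summable (fun k : ℕ => (|C| * (2 : ℝ) ^ (s + e)) * ((2 : ℝ) ^ (-e)) ^ k) :=
    (summable_geometric_of_lt_one hr0 hr).mul_left _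
  refine summable_of_sum_le (c := ∑' k : ℕ, (|C| * (2 : ℝ) ^ (s + e)) * ((2 : ℝ) ^ (-e)) ^ k) hf0
    fun u => ?_
  set K : ℕ := (u.sup fun w => Nat.log 2 (size w)) + 1 with hK
  have hmaps : ∀ w ∈ u, Nat.log 2 (size w) ∈ range K := by
    intro w hw
    rw [mem_range, hK]
    exact Nat.lt_succ_of_le (le_sup (f := fun w => Nat.log 2 (size w)) hw)
  rw [← sum_fiberwise_of_maps_to hmaps]
  have hblock : ∀ k ∈ range K, ∑ w ∈ u.filter (fun w => Nat.log 2 (size w) = k), f w ≤
      (|C| * (2 : ℝ) ^ (s + e)) * ((2 : ℝ) ^ (-e)) ^ k := by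
    intro k _
    have h2k : (0 : ℝ) < (2 : ℝ) ^ k := by positivity
    have hX := hC (2 ^ (k + 1)) Nat.one_le_two_pow
    have h1 : ∑ w ∈ u.filter (fun w => Nat.log 2 (size w) = k), f w ≤
        ((u.filter (fun w => Nat.log 2 (size w) = k)).filter (fun w => w ∈ P)).card * ((2 : ℝ) ^ k) ^ (-D) := by
      rw [card_eq_sum_ones, Nat.cast_sum, sum_mul, sum_filter (fun w => w ∈ P)]
      refine sum_le_sum fun w hw => ?_
      rw [mem_filter] at hw
      rw [hf]
      dsimp only
      by_cases hwP : w ∈ P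
      · rw [if_pos hwP, Nat.cast_one, one_mul]
        split_ifs with h
        · have h3 : 2 ^ k ≤ size w := by
            rw [← hw.2]
            exact Nat.pow_log_le_self 2 (by omega)
          have h4 : (2 : ℝ) ^ k ≤ size w := by exact_mod_cast h3
          exact Real.rpow_le_rpow_of_nonpos h2k h4 (by linarith)
        · positivity
      · rw [if_neg (fun h => hwP h.1), if_neg hwP]
    have h2 : (((u.filter (fun w => Nat.log 2 (size w) = k)).filter (fun w => w ∈ P)).card : ℝ) ≤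
        |C| * ((2 : ℝ) ^ (k + 1)) ^ (s + e) := by
      have h3 : (((u.filter (fun w => Nat.log 2 (size w) = k)).filter (fun w => w ∈ P) : Finset (κ → ℤ)) :
          Set (κ → ℤ)) ⊆ {w | w ∈ P ∧ size w ≤ 2 ^ (k + 1)} := by
        intro w hw
        rw [mem_coe, mem_filter, mem_filter] at hw
        refine ⟨hw.2, ?_⟩
        rw [← hw.1.2]
        exact (Nat.lt_pow_succ_log_self (by norm_num) _).le
      have h4 := Set.ncard_le_ncard h3 ((finite_size (2 ^ (k + 1))).subset fun w hw => hw.2)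
      rw [Set.ncard_coe_finset] at h4
      refine (Nat.cast_le.2 h4).trans (hX.trans ?_)
      have h5 : (((2 ^ (k + 1) : ℕ)) : ℝ) = (2 : ℝ) ^ (k + 1) := by push_cast; ring
      rw [h5]
      exact mul_le_mul_of_nonneg_right (le_abs_self C) (by positivity)
    refine h1.trans ((mul_le_mul_of_nonneg_right h2 (by positivity)).trans (le_of_eq ?_))
    have e1 : ((2 : ℝ) ^ (k + 1)) ^ (s + e) = (2 : ℝ) ^ (s + e) * ((2 : ℝ) ^ k) ^ (s + e) := by
      rw [pow_succ, mul_comm, Real.mul_rpow (by norm_num) h2k.le]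
    have e2 : ((2 : ℝ) ^ k) ^ (s + e) * ((2 : ℝ) ^ k) ^ (-D) = ((2 : ℝ) ^ (-e)) ^ k := by
      rw [← Real.rpow_add h2k]
      have : s + e + -D = -e := by rw [he]; ring
      rw [this, ← Real.rpow_natCast, ← Real.rpow_mul (by norm_num), ← Real.rpow_natCast,
        ← Real.rpow_mul (by norm_num)]
      ring_nf
    rw [e1]
    calc |C| * ((2 : ℝ) ^ (s + e) * ((2 : ℝ) ^ k) ^ (s + e)) * ((2 : ℝ) ^ k) ^ (-D)
        = |C| * (2 : ℝ) ^ (s + e) * (((2 : ℝ) ^ k) ^ (s + e) * ((2 : ℝ) ^ k) ^ (-D)) := by ring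
      _ = _ := by rw [e2]
  exact (sum_le_sum hblock).trans (hgeo.sum_le_tsum _ fun k _ => by positivity)

end Pool.Agent.X67.LF
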