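import Pool.Agent.X67.LF.Basic

set_option autoImplicit false

open Finset Filter Topology MeasureTheory

namespace Pool.Agent.X67.LF

open scoped ENNReal NNReal

variable {κ : Type} [Fintype κ]

/-- the linear forms `a`, `|a_l| ≤ N`, with `a w - y` within `(size w) ^ (-θ)` of an integer -/
def form (N y θ : ℝ) (w : κ → ℤ) : Set (κ → ℝ) :=
  {a | (∀ l, |a l| ≤ N) ∧ ∃ p : ℤ, |∑ l, a l * w l - p - y| ≤ (size w : ℝ) ^ (-θ)}

theorem measurableSet_form (N y θ : ℝ) (w : κ → ℤ) : MeasurableSet (form N y θ w) := by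
  have h1 : form N y θ w = (⋂ l, {a : κ → ℝ | |a l| ≤ N}) ∩
      ⋃ p : ℤ, {a : κ → ℝ | |∑ l, a l * w l - p - y| ≤ (size w : ℝ) ^ (-θ)} := by
    ext a
    simp [form]
  rw [h1]
  refine (MeasurableSet.iInter fun l => ?_).inter (MeasurableSet.iUnion fun p => ?_)
  · exact (isClosed_le (by fun_prop) continuous_const).measurableSet
  · exact (isClosed_le (by fun_prop) continuous_const).measurableSet

omit [Fintype κ] in
theorem box_eq (N : ℝ) : {a : κ → ℝ | ∀ l, |a l| ≤ N} = Set.pi Set.univ (fun _ : κ => Set.Icc (-N) N) := by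
  ext a
  simp only [Set.mem_setOf_eq, Set.mem_pi, Set.mem_univ, true_implies, Set.mem_Icc, abs_le]

theorem volume_box (N : ℝ) (hN : 0 ≤ N) : volume {a : κ → ℝ | ∀ l, |a l| ≤ N} =
    ENNReal.ofReal ((2 * N) ^ (Fintype.card κ)) := by
  rw [box_eq, volume_pi_pi]
  simp only [Real.volume_Icc, prod_const, card_univ]
  rw [← ENNReal.ofReal_pow (by linarith)]
  congr 2
  ring

theorem measurableSet_box (N : ℝ) : MeasurableSet {a : κ → ℝ | ∀ l, |a l| ≤ N} := by
  rw [box_eq]
  exact MeasurableSet.univ_pi fun _ => measurableSet_Icc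

open Pool.Agent.X283.DA (near volume_near) in
theorem volume_form_aux {N θ : ℝ} (y : ℝ) (hN : 0 ≤ N) (hθ : 0 ≤ θ) (w : κ → ℤ) (hw : 1 ≤ size w)
    (l₀ : κ) (hl : (w l₀).natAbs = size w) (p : κ → Prop) [DecidablePred p] (hp : ∀ l, p l ↔ l = l₀) :
    volume (form N y θ w) ≤ ENNReal.ofReal ((4 * N + 10) ^ (Fintype.card κ) * (size w : ℝ) ^ (-θ)) := by
  set e := MeasurableEquiv.piEquivPiSubtypeProd (fun _ : κ => ℝ) p with he
  have hmp : MeasurePreserving e := volume_preserving_piEquivPiSubtypeProd (fun _ : κ => ℝ) p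
  have h1 : volume (form N y θ w) = volume (e.symm ⁻¹' (form N y θ w)) :=
    (hmp.symm.measure_preimage_equiv _).symm
  have hmeas : MeasurableSet (e.symm ⁻¹' (form N y θ w)) := e.symm.measurable (measurableSet_form N y θ w)
  rw [h1]
  change ((volume : Measure ({l // p l} → ℝ)).prod (volume : Measure ({l // ¬ p l} → ℝ)))
    (e.symm ⁻¹' (form N y θ w)) ≤ _
  rw [Measure.prod_apply_symm hmeas]
  have hp0 : p l₀ := (hp l₀).2 rfl
  -- the slices
  have hslice : ∀ r : {l // ¬ p l} → ℝ,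
      volume ((fun x : {l // p l} → ℝ => (x, r)) ⁻¹' (e.symm ⁻¹' (form N y θ w))) ≤
        ({r : {l // ¬ p l} → ℝ | ∀ l, |r l| ≤ N}).indicator
          (fun _ => ENNReal.ofReal ((4 * N + 10) * (size w : ℝ) ^ (-θ))) r := by
    intro r
    have hsymm : ∀ (x : {l // p l} → ℝ) (l : κ), e.symm (x, r) l =
        if h : p l then x ⟨l, h⟩ else r ⟨l, h⟩ := fun x l => rfl
    have hx0 : ∀ x : {l // p l} → ℝ, e.symm (x, r) l₀ = x ⟨l₀, hp0⟩ := fun x => by
      rw [hsymm, dif_pos hp0]
    have hxr : ∀ (x : {l // p l} → ℝ) (l : {l // ¬ p l}), e.symm (x, r) l = r l := fun x l => by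
      rw [hsymm, dif_neg l.2]
    by_cases hr : ∀ l, |r l| ≤ N
    · rw [Set.indicator_of_mem (show r ∈ {r : {l // ¬ p l} → ℝ | ∀ l, |r l| ≤ N} from hr)]
      -- the constant part
      set c : ℝ := ∑ l : {l // ¬ p l}, r l * w l with hc
      have hsum : ∀ x : {l // p l} → ℝ, ∑ l, e.symm (x, r) l * w l = x ⟨l₀, hp0⟩ * w l₀ + c := by
        intro x
        rw [← Fintype.sum_subtype_add_sum_subtype p (fun l => e.symm (x, r) l * (w l : ℝ))]
        congr 1
        · have : Subsingleton {l // p l} := ⟨fun a b => Subtype.ext (((hp a).1 a.2).trans ((hp b).1 b.2).symm)⟩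
          rw [Fintype.sum_subsingleton _ (⟨l₀, hp0⟩ : {l // p l}), hx0]
        · rw [hc]
          exact Finset.sum_congr rfl fun l _ => by rw [hxr]
      -- the one-dimensional condition
      obtain ⟨y', hy'⟩ : ∃ y' : ℝ, ∀ t : ℝ, (∃ q : ℤ, |(t * w l₀ + c) - q - y| ≤ (size w : ℝ) ^ (-θ)) →
          ∃ q : ℤ, |((size w : ℕ) : ℝ) * t - q - y'| ≤ (size w : ℝ) ^ (-θ) := by
        rcases le_or_gt 0 (w l₀) with h | h
        · refine ⟨y - c, fun t ⟨q, hq⟩ => ⟨q, ?_⟩⟩
          have h2 : ((size w : ℕ) : ℝ) = w l₀ := by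
            rw [← hl, Nat.cast_natAbs, abs_of_nonneg h]
          rw [h2]
          rw [h2] at hq
          refine le_trans (le_of_eq ?_) hq
          congr 1
          ring
        · refine ⟨c - y, fun t ⟨q, hq⟩ => ⟨-q, ?_⟩⟩
          have h2 : ((size w : ℕ) : ℝ) = -(w l₀ : ℝ) := by
            rw [← hl, Nat.cast_natAbs, abs_of_neg h, Int.cast_neg]
          refine le_trans (le_of_eq ?_) hq
          rw [h2, ← abs_neg]
          congr 1
          push_cast
          ring
      have hsub : (fun x : {l // p l} → ℝ => (x, r)) ⁻¹' (e.symm ⁻¹' (form N y θ w)) ⊆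
          Set.pi Set.univ (fun _ : {l // p l} => near N y' θ (size w)) := by
        rintro x ⟨hx, hx2⟩
        intro l _
        have hl0 : l = ⟨l₀, hp0⟩ := Subtype.ext ((hp l).1 l.2)
        rw [hl0]
        refine ⟨?_, ?_⟩
        · rw [← hx0 x]
          exact hx l₀
        · apply hy'
          rw [← hsum x]
          exact hx2
      have : Subsingleton {l // p l} := ⟨fun a b => Subtype.ext (((hp a).1 a.2).trans ((hp b).1 b.2).symm)⟩
      calc volume ((fun x : {l // p l} → ℝ => (x, r)) ⁻¹' (e.symm ⁻¹' (form N y θ w)))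
          ≤ volume (Set.pi Set.univ (fun _ : {l // p l} => near N y' θ (size w))) := measure_mono hsub
        _ = volume (near N y' θ (size w)) := by
            rw [volume_pi_pi, Fintype.prod_subsingleton _ (⟨l₀, hp0⟩ : {l // p l})]
        _ ≤ _ := volume_near hN hθ hw
    · rw [Set.indicator_of_notMem (show r ∉ {r : {l // ¬ p l} → ℝ | ∀ l, |r l| ≤ N} from hr)]
      rw [nonpos_iff_eq_zero]
      convert measure_empty (μ := (volume : Measure ({l // p l} → ℝ)))
      rw [Set.eq_empty_iff_forall_notMem]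
      rintro x ⟨hx, -⟩
      apply hr
      intro l
      rw [← hxr x l]
      exact hx l
  refine (lintegral_mono hslice).trans ?_
  rw [lintegral_indicator_const (measurableSet_box N), volume_box N hN,
    ← ENNReal.ofReal_mul (by positivity)]
  apply ENNReal.ofReal_le_ofReal
  have hcard : Fintype.card κ = 1 + Fintype.card {l // ¬ p l} := by
    have : Subsingleton {l // p l} := ⟨fun a b => Subtype.ext (((hp a).1 a.2).trans ((hp b).1 b.2).symm)⟩
    have h2 : Fintype.card {l // p l} = 1 := Fintype.card_eq_one_iff.2 ⟨⟨l₀, hp0⟩, fun b => Subsingleton.elim _ _⟩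
    have h3 := Fintype.card_subtype_compl p
    have h4 := Fintype.card_subtype_le p
    omega
  rw [hcard, pow_add, pow_one]
  have h5 : (2 * N) ^ (Fintype.card {l // ¬ p l}) ≤ (4 * N + 10) ^ (Fintype.card {l // ¬ p l}) :=
    pow_le_pow_left₀ (by positivity) (by linarith) _
  have h6 : 0 ≤ (4 * N + 10) * (size w : ℝ) ^ (-θ) := by positivity
  calc (4 * N + 10) * (size w : ℝ) ^ (-θ) * (2 * N) ^ (Fintype.card {l // ¬ p l})
      ≤ (4 * N + 10) * (size w : ℝ) ^ (-θ) * (4 * N + 10) ^ (Fintype.card {l // ¬ p l}) :=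
        mul_le_mul_of_nonneg_left h5 h6
    _ = _ := by ring

theorem volume_form {N θ : ℝ} (y : ℝ) (hN : 0 ≤ N) (hθ : 0 ≤ θ) (w : κ → ℤ) (hw : 1 ≤ size w) :
    volume (form N y θ w) ≤ ENNReal.ofReal ((4 * N + 10) ^ (Fintype.card κ) * (size w : ℝ) ^ (-θ)) := by
  classical
  obtain ⟨l₀, hl⟩ := exists_max w hw
  exact volume_form_aux y hN hθ w hw l₀ hl (fun l => l = l₀) (fun l => Iff.rfl)

end Pool.Agent.X67.LF
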